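import Mathlib
import Pool.Agent.E139.Blk
import Pool.Agent.HL26.AP

/-!
# Many primes `≡ 1 (mod q)` up to `N` with all distances `> L`, for `L ≤ C₀ log N`
-/

set_option autoImplicit false

open Finset Filter

namespace Pool.Agent.E139S

open Pool.Agent.E139

/-- the primes `≡ 1 (mod q)` up to `N` -/
def Q (q N : ℕ) : Finset ℕ := (Icc 1 N).filter (fun p => p.Prime ∧ p % q = 1 % q)

lemma card_Q (q : ℕ) (hq : 0 < q) : ∀ᶠ N : ℕ in atTop,
    (1 / (2 * (Nat.totient q : ℝ))) * ((N:ℝ) / Real.log N) ≤ ((Q q N).card : ℝ) := by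
  have hφ : (0:ℝ) < (Nat.totient q : ℝ) := by exact_mod_cast Nat.totient_pos.mpr hq
  have hq2 : ∀ᶠ N : ℕ in atTop, (q:ℝ) ≤ (Real.log N) ^ 2 := by
    have h1 : Tendsto (fun N : ℕ => Real.log (N:ℝ)) atTop atTop :=
      Real.tendsto_log_atTop.comp tendsto_natCast_atTop_atTop
    have h2 : Tendsto (fun N : ℕ => (Real.log (N:ℝ)) ^ 2) atTop atTop :=
      (tendsto_pow_atTop (by norm_num)).comp h1
    exact h2.eventually_ge_atTop _
  filter_upwards [tendsto_natCast_atTop_atTop.eventually (Pool.Agent.HL26.primesAP 0 (1 / 2) (by norm_num)), hq2,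
    eventually_ge_atTop 3] with N hN hqN hN3
  have hN3' : (3:ℝ) ≤ N := by exact_mod_cast hN3
  have hl : 0 < Real.log N := Real.log_pos (by linarith)
  have h := hN q hq hqN 1 isUnit_one
  have hsub : ((Finset.Ioc (max 1 ⌊(Real.log (N:ℝ)) ^ 0⌋₊) (⌊(N:ℝ)⌋₊ - max 1 ⌊(Real.log (N:ℝ)) ^ 0⌋₊)).filter
        (fun p : ℕ => p.Prime ∧ (p : ZMod q) = 1)) ⊆ Q q N := by
    intro p hp
    rw [mem_filter, mem_Ioc, Nat.floor_natCast] at hp
    unfold Q
    rw [mem_filter, mem_Icc]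
    refine ⟨⟨hp.2.1.one_lt.le, hp.1.2.trans (Nat.sub_le _ _)⟩, hp.2.1, ?_⟩
    have h1 : ((p : ℕ) : ZMod q) = ((1 : ℕ) : ZMod q) := by rw [hp.2.2]; simp
    exact (ZMod.natCast_eq_natCast_iff' p 1 q).mp h1
  have h2 : (((Finset.Ioc (max 1 ⌊(Real.log (N:ℝ)) ^ 0⌋₊) (⌊(N:ℝ)⌋₊ - max 1 ⌊(Real.log (N:ℝ)) ^ 0⌋₊)).filter
        (fun p : ℕ => p.Prime ∧ (p : ZMod q) = 1)).card : ℝ) ≤ ((Q q N).card : ℝ) := by
    exact_mod_cast card_le_card hsub
  refine le_trans (le_of_eq ?_) (h.trans h2)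
  field_simp
  ring

lemma card_Q_le {q N M : ℕ} (hM : 0 < M) :
    (Q q N).card ≤ ∑ g ∈ (Q q N).image (fun p => p / M), W (g * M) M := by
  classical
  rw [card_eq_sum_card_fiberwise (f := fun v => v / M) (t := (Q q N).image (fun p => p / M))]
  · apply sum_le_sum
    intro g _
    unfold W
    apply card_le_card_of_injOn (fun v => v - g * M)
    · intro v hv
      rw [mem_coe, mem_filter] at hv
      obtain ⟨h2, h3⟩ := hv
      unfold Q at h2
      rw [mem_filter] at h2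
      have h4 : g * M ≤ v := by rw [← h3]; exact Nat.div_mul_le_self v M
      have h5 : v < g * M + M := by rw [← h3]; exact Nat.lt_div_mul_add hM
      rw [mem_coe, mem_filter, mem_range]
      refine ⟨show v - g * M < M by omega, ?_⟩
      change Nat.Prime (g * M + (v - g * M))
      rw [show g * M + (v - g * M) = v by omega]
      exact h2.2.1
    · intro a ha b hb hab
      rw [mem_coe, mem_filter] at ha hb
      have h4 : g * M ≤ a := by rw [← ha.2]; exact Nat.div_mul_le_self a M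
      have h5 : g * M ≤ b := by rw [← hb.2]; exact Nat.div_mul_le_self b M
      simp only at hab
      omega
  · intro v hv
    rw [mem_coe] at hv ⊢
    exact mem_image_of_mem _ hv

/-- many primes `≡ 1 (mod q)` with large distances -/
theorem spaced (q : ℕ) (hq : 0 < q) (C0 : ℝ) : ∃ c : ℝ, 0 < c ∧ ∀ᶠ N : ℕ in atTop, ∀ L : ℕ,
    (L:ℝ) ≤ C0 * Real.log N → ∃ P : Finset ℕ,
      (∀ p ∈ P, p.Prime ∧ p ≤ N ∧ p % q = 1 % q) ∧
      (∀ p ∈ P, ∀ p' ∈ P, p < p' → p + L < p') ∧ c * ((N:ℝ) / Real.log N) ≤ (P.card : ℝ) := by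
  classical
  obtain ⟨C, hC, hb⟩ := blocks
  have hφ : (0:ℝ) < (Nat.totient q : ℝ) := by exact_mod_cast Nat.totient_pos.mpr hq
  set φ : ℝ := (Nat.totient q : ℝ) with hφd
  set C1 : ℝ := max C0 1 with hC1
  have hC1p : 1 ≤ C1 := le_max_right _ _
  have h2N : Tendsto (fun N : ℕ => 2 * N) atTop atTop := tendsto_id.const_mul_atTop' (by norm_num)
  have hlarge : ∀ᶠ N : ℕ in atTop, (C1 + 2) * (2 * Real.log N) ^ 3 ≤ N := by
    have h := isLittleO_log_rpow_rpow_atTop (3 : ℝ) (show (0:ℝ) < 1 by norm_num)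
    filter_upwards [tendsto_natCast_atTop_atTop.eventually
      (h.bound (show (0:ℝ) < 1 / (8 * (C1 + 2)) by positivity)), eventually_ge_atTop 3] with X hX hX3
    have hX3' : (3:ℝ) ≤ X := by exact_mod_cast hX3
    have hl : 0 < Real.log X := Real.log_pos (by linarith)
    rw [Real.norm_of_nonneg (by positivity), Real.norm_of_nonneg (by positivity)] at hX
    have h3 : Real.log X ^ (3:ℝ) = Real.log X ^ 3 := by norm_cast
    rw [h3, Real.rpow_one, one_div_mul_eq_div, le_div_iff₀ (by positivity)] at hX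
    calc (C1 + 2) * (2 * Real.log X) ^ 3 = Real.log X ^ 3 * (8 * (C1 + 2)) := by ring
      _ ≤ (X:ℝ) := hX
  refine ⟨1 / (16 * φ ^ 2 * C * (C1 + 2)), by positivity, ?_⟩
  filter_upwards [h2N.eventually hb, card_Q q hq, hlarge, eventually_ge_atTop 16] with N hbN hQ hN3 hN16
    L hL
  have hN : (16:ℝ) ≤ N := by exact_mod_cast hN16
  set T : ℝ := Real.log N with hT
  have hT2 : 2 ≤ T := by
    have h1 : Real.log 16 ≤ T := Real.log_le_log (by norm_num) hN
    have h2 : Real.log 16 = 4 * Real.log 2 := by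
      rw [show (16:ℝ) = 2 ^ 4 by norm_num, Real.log_pow]; norm_num
    have := Real.log_two_gt_d9
    linarith
  set M : ℕ := ⌈C1 * T⌉₊ + 1 with hM
  have hM1 : C1 * T + 1 ≤ (M:ℝ) := by rw [hM]; push_cast; linarith [Nat.le_ceil (C1 * T)]
  have hM2 : (M:ℝ) ≤ (C1 + 2) * T := by
    rw [hM]; push_cast
    have := (Nat.ceil_lt_add_one (show 0 ≤ C1 * T by positivity)).le
    linarith
  have hTM : T + 1 ≤ (M:ℝ) := by nlinarith
  have hLM : L < M := by
    have h1 : (L:ℝ) ≤ C1 * T := hL.trans (mul_le_mul_of_nonneg_right (le_max_left _ _) (by linarith))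
    have : (L:ℝ) < M := by linarith
    exact_mod_cast this
  have hMpos : 0 < M := by omega
  have hlog2N : T ≤ Real.log (((2 * N : ℕ)) : ℝ) ∧ Real.log (((2 * N : ℕ)) : ℝ) ≤ T + 1 := by
    push_cast
    rw [Real.log_mul (by norm_num) (by positivity)]
    have := Real.log_two_gt_d9
    have := Real.log_two_lt_d9
    constructor <;> linarith
  have hMT : (C1 + 2) * T * (2 * T) ^ 2 ≤ N := by
    have h1 : (C1 + 2) * T * (2 * T) ^ 2 ≤ (C1 + 2) * (2 * T) ^ 3 := by
      have : 0 ≤ (C1 + 2) * T ^ 3 := by positivity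
      nlinarith
    linarith
  have hMN : (M:ℝ) ≤ N := by
    have h1 : (C1 + 2) * T ≤ (C1 + 2) * T * (2 * T) ^ 2 := by
      apply le_mul_of_one_le_right (by positivity)
      nlinarith
    linarith
  have hMN' : M ≤ N := by exact_mod_cast hMN
  have hb1 := hbN M (N / M + 1) (by linarith [hlog2N.2]) (by omega)
    (by have h1 : (Real.log (((2 * N : ℕ)) : ℝ)) ^ 2 ≤ (2 * T) ^ 2 :=
          pow_le_pow_left₀ (by linarith [hlog2N.1]) (by linarith [hlog2N.2]) 2
        have h2 : (M:ℝ) * (Real.log (((2 * N : ℕ)) : ℝ)) ^ 2 ≤ (C1 + 2) * T * (2 * T) ^ 2 :=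
          mul_le_mul hM2 h1 (by positivity) (by positivity)
        push_cast at h2 ⊢
        linarith)
    (by have : N / M * M ≤ N := Nat.div_mul_le_self N M
        rw [Nat.succ_mul]
        omega)
  set I := (Q q N).image (fun p => p / M) with hI
  have hIsub : I ⊆ range (N / M + 1) := by
    intro g hg
    rw [hI, mem_image] at hg
    obtain ⟨p, hp, rfl⟩ := hg
    unfold Q at hp
    rw [mem_filter, mem_Icc] at hp
    exact mem_range.mpr (Nat.lt_succ_of_le (Nat.div_le_div_right hp.1.2))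
  have hcs : (∑ g ∈ I, (W (g * M) M : ℝ)) ^ 2 ≤ (I.card : ℝ) * ∑ g ∈ I, (W (g * M) M : ℝ) ^ 2 :=
    sq_sum_le_card_mul_sum_sq
  have hsum : ∑ g ∈ I, (W (g * M) M : ℝ) ^ 2 ≤ 2 * C * (C1 + 2) * ((N:ℝ) / T) := by
    have h1 : ∑ g ∈ I, (W (g * M) M : ℝ) ^ 2 ≤ ∑ g ∈ range (N / M + 1), (W (g * M) M : ℝ) ^ 2 :=
      sum_le_sum_of_subset_of_nonneg hIsub fun _ _ _ => sq_nonneg _
    refine h1.trans (hb1.trans ?_)
    have h2 : (((2 * N : ℕ)) : ℝ) / (Real.log (((2 * N : ℕ)) : ℝ)) ^ 2 ≤ (((2 * N : ℕ)) : ℝ) / T ^ 2 :=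
      div_le_div_of_nonneg_left (by positivity) (by positivity)
        (pow_le_pow_left₀ (by linarith) hlog2N.1 2)
    calc C * (M:ℝ) * ((((2 * N : ℕ)) : ℝ) / (Real.log (((2 * N : ℕ)) : ℝ)) ^ 2) ≤
          C * ((C1 + 2) * T) * ((((2 * N : ℕ)) : ℝ) / T ^ 2) :=
          mul_le_mul (mul_le_mul_of_nonneg_left hM2 hC.le) h2 (by positivity) (by positivity)
      _ = 2 * C * (C1 + 2) * ((N:ℝ) / T) := by push_cast; field_simp
  have hQ' : ((Q q N).card : ℝ) ≤ ∑ g ∈ I, (W (g * M) M : ℝ) := by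
    exact_mod_cast (card_Q_le (q := q) (N := N) (M := M) hMpos)
  have hIc : (1 / (8 * φ ^ 2 * C * (C1 + 2))) * ((N:ℝ) / T) ≤ (I.card : ℝ) := by
    have h1 : (1 / (2 * φ) * ((N:ℝ) / T)) ^ 2 ≤ (I.card : ℝ) * (2 * C * (C1 + 2) * ((N:ℝ) / T)) := by
      calc (1 / (2 * φ) * ((N:ℝ) / T)) ^ 2 ≤ (∑ g ∈ I, (W (g * M) M : ℝ)) ^ 2 :=
            pow_le_pow_left₀ (by positivity) (hQ.trans hQ') 2
        _ ≤ _ := hcs.trans (mul_le_mul_of_nonneg_left hsum (by positivity))
    have h2 : (1 / (8 * φ ^ 2 * C * (C1 + 2))) * ((N:ℝ) / T) * (2 * C * (C1 + 2) * ((N:ℝ) / T)) =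
        (1 / (2 * φ) * ((N:ℝ) / T)) ^ 2 := by
      field_simp
      norm_num
    rw [← h2] at h1
    exact le_of_mul_le_mul_right h1 (by positivity)
  -- one parity class
  have hch : ∀ g : ℕ, ∃ p : ℕ, g ∈ I → (p ∈ Q q N ∧ p / M = g) := by
    intro g
    by_cases h : g ∈ I
    · have h' := h
      rw [hI, mem_image] at h'
      obtain ⟨p, hp, hpg⟩ := h'
      exact ⟨p, fun _ => ⟨hp, hpg⟩⟩
    · exact ⟨0, fun h' => absurd h' h⟩
  choose w hw using hch
  have hpar : ∃ r : ℕ, (I.card : ℝ) / 2 ≤ ((I.filter (fun g => g % 2 = r)).card : ℝ) := by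
    have h1 : I.card = (I.filter (fun g => g % 2 = 0)).card + (I.filter (fun g => g % 2 = 1)).card := by
      rw [← card_union_of_disjoint]
      · congr 1
        ext g
        rw [mem_union, mem_filter, mem_filter]
        constructor
        · intro h
          rcases Nat.mod_two_eq_zero_or_one g with h2 | h2
          · exact Or.inl ⟨h, h2⟩
          · exact Or.inr ⟨h, h2⟩
        · rintro (h | h) <;> exact h.1
      · rw [disjoint_left]
        intro g h2 h3
        rw [mem_filter] at h2 h3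
        omega
    by_cases h2 : (I.card : ℝ) / 2 ≤ ((I.filter (fun g => g % 2 = 0)).card : ℝ)
    · exact ⟨0, h2⟩
    · refine ⟨1, ?_⟩
      push Not at h2
      have h3 : (I.card : ℝ) = ((I.filter (fun g => g % 2 = 0)).card : ℝ) +
          ((I.filter (fun g => g % 2 = 1)).card : ℝ) := by exact_mod_cast h1
      linarith
  obtain ⟨r, hr⟩ := hpar
  refine ⟨(I.filter (fun g => g % 2 = r)).image w, ?_, ?_, ?_⟩
  · intro p hp
    rw [mem_image] at hp
    obtain ⟨g, hg, rfl⟩ := hp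
    have h1 := (hw g (mem_filter.mp hg).1).1
    unfold Q at h1
    rw [mem_filter, mem_Icc] at h1
    exact ⟨h1.2.1, h1.1.2, h1.2.2⟩
  · intro p hp p' hp' hpp
    rw [mem_image] at hp hp'
    obtain ⟨g, hg, rfl⟩ := hp
    obtain ⟨g', hg', rfl⟩ := hp'
    rw [mem_filter] at hg hg'
    have h1 := (hw g hg.1).2
    have h2 := (hw g' hg'.1).2
    have h3 : g ≤ g' := by rw [← h1, ← h2]; exact Nat.div_le_div_right hpp.le
    have h4 : g ≠ g' := by
      rintro rfl
      exact lt_irrefl _ hpp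
    have h5 : g + 2 ≤ g' := by omega
    have h6 : w g < g * M + M := by
      have := Nat.lt_div_mul_add (a := w g) hMpos
      rwa [h1] at this
    have h7 : g' * M ≤ w g' := by
      have := Nat.div_mul_le_self (w g') M
      rwa [h2] at this
    have h8 : (g + 2) * M ≤ g' * M := Nat.mul_le_mul_right M h5
    have h9 : (g + 2) * M = g * M + M + M := by ring
    omega
  · rw [card_image_of_injOn]
    · have h1 : 1 / (16 * φ ^ 2 * C * (C1 + 2)) * ((N:ℝ) / T) =
          (1 / (8 * φ ^ 2 * C * (C1 + 2))) * ((N:ℝ) / T) / 2 := by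
        field_simp
        norm_num
      rw [h1]
      linarith
    · intro a ha b hb hab
      rw [mem_coe, mem_filter] at ha hb
      rw [← (hw a ha.1).2, ← (hw b hb.1).2, hab]

end Pool.Agent.E139S
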